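import Pool.Agent.Lib.MP_b5021c_nt.O1.H40.Ms
import Pool.Agent.Lib.MP_b5021c_nt.O1.H12.Bg

/-!
# MP_b5021c_nt, ALL `θ`, K ODD, row O1_II: the C-load of the swapped element
-/

namespace Pool.Agent.B5.O1H40

open scoped LaurentPolynomial
open Polynomial Pool.Agent.B5
open Pool.Agent.B5.H40 (uT)
open Pool.Agent.B5.Nr.Sch (Loc)
open Pool.Agent.MP_b5021c_nt (nz)

set_option linter.unusedSectionVars false

section

variable {P L : Type} [Fintype P] [DecidableEq P] [AddCommGroup L] [Module.Free ℤ L]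
  [Module.Finite ℤ L] {phi : L →+ (P → ℤ)} {D : AO ℤ L} {S b : L}
  {q f : ℤ[X]} {e e1 : (RO ℤ)ˣ} {a : ℝ}

/-- The load `T` of the swapped element is drop free. -/
theorem c_free (hV : VcoS) (hRk : RkUSS) {U H : AO ℤ L}
    (hD' : DD phi (swp S b (-e) e1 U H)) (hS : Ray (swp S b (-e) e1 U H) S)
    (hP : PairF phi D S b (-e) e1 U H) (hU : U.coeff 0 = toLaurent (q - f))
    (hH : H.coeff 0 = toLaurent f) (hq : q.coeff 0 = 1) (hf : f.coeff 0 = 1)
    (hn : f.coeff 1 - q.coeff 1 ≠ 1) :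
    Dgr phi (swp S b (-e) e1 U H) S (ld (ld (-e) (-1)) 2) 0 := by
  have hT : ((uT (1 : ℤˣ) 1 : (RO ℤ)ˣ) : RO ℤ) = toLaurent X := by
    rw [H40.uT_val, Units.val_one, map_one, one_mul, toLaurent_X]
  rw [ld_ld]
  have h1 : ld (-e) (-1 + 2) = uT (1 : ℤˣ) 1 * (-e) := by
    rw [show (-1 : ℤ) + 2 = 1 by norm_num]
    rfl
  rw [h1]
  apply dgr_of_us hRk hD' hS
  apply us_top hV hD' hP
  · rw [hT]
    intro h2
    have h3 : (toLaurent X : RO ℤ) = toLaurent 1 := by rw [h2, map_one]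
    have h4 := congrArg (fun p : ℤ[X] => p.coeff 0) (toLaurent_injective h3)
    simp only [coeff_X_zero, coeff_one_zero] at h4
    exact zero_ne_one h4
  · rw [hT, hU, hH]
    have h2 : (toLaurent X * toLaurent f + (1 - toLaurent X) * toLaurent (q - f) : RO ℤ) =
        toLaurent (X * f + (q - f) - X * (q - f)) := by
      simp only [map_sub, map_add, map_mul]
      ring
    rw [h2, Ne, toLaurent_eq_zero]
    intro h3
    have h4 := congrArg (fun p : ℤ[X] => p.coeff 1) h3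
    simp only [coeff_sub, coeff_add, coeff_X_mul, coeff_zero] at h4
    omega

/-- The C-load of an element of rank `2 j + 1`: the sign at `p`. -/
theorem c_neg (hPc : PCZS) (hE1 : E1S) (hMV : MVS) (hMm : MmulS) (hClp : ClpS) (hFD : FDS)
    (hSf : SfzS) {E0 : ℤ[X]} {p : ℝ} {j : ℕ} (fp : FP phi D) (hS : Ray D S)
    (hR : RN D S q E0 e a) (hj : 2 ≤ j) (hrk : Module.finrank ℤ L = 2 * j + 1)
    (hlt : 1 < ((j : ℝ) + 1) * a) (ha2 : a ≤ 1 / 2) (hih : ∀ K < 2 * j + 1, Bnk K)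
    (hp0 : 0 < p) (hpj : p⁻¹ - p = j) (hd : Dgr phi D S (ld e 2) 0) :
    (aeval p (q + X ^ 2 * E0) : ℝ) ≤ 0 := by
  have hD := fp.dd
  have ha0 := hR.loc.a0
  have hj' : (2 : ℝ) ≤ j := by exact_mod_cast hj
  have hθ : a⁻¹ < j + 1 := by
    rw [inv_lt_iff_one_lt_mul₀ ha0]
    linarith
  have hθ2 : 2 ≤ a⁻¹ := by
    have : (2 : ℝ)⁻¹⁻¹ ≤ a⁻¹ := inv_anti₀ ha0 (by linarith)
    rwa [inv_inv] at this
  obtain ⟨i0, h⟩ := KE.exists_port hD hS
  obtain ⟨c, n, G, fd⟩ := hFD ℤ P L phi D S i0 (ld e 2) h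
    ⟨hD, by omega, hS, h, by exact_mod_cast KE.V0_ne hR (k := 2) (by omega)⟩
  have hdr : Module.finrank ℤ L = rk (supp (cl (co phi i0) S h (ld e 2) D)) + 1 := by
    have := hd.2 i0 h
    omega
  have hSS : ((ld e 2 : (RO ℤ)ˣ) : RO ℤ) * D.coeff S = toLaurent (X * (X * E0)) := by
    have h1 := KE.ld_S hR 2
    rw [← mul_assoc, ← sq]
    exact_mod_cast h1
  have key : ¬ ((snp phi S i0 G).Nonempty ∨ big G = ∅) := by
    intro hcon
    have h1 := hSf P L phi D S i0 (ld e 2) h c n G a⁻¹ 0 q (X * E0) fp fd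
      (by rw [hrk]; omega) hθ2 (KE.classP_q hR)
      (by rw [LaurentPolynomial.T_zero, one_mul, hR.D0])
      (by rw [hR.loc.q0, abs_one])
      (by rw [LaurentPolynomial.T_zero, one_mul, hSS])
      (by rw [coeff_X_mul_zero, abs_zero]; exact zero_le_one) hcon (Or.inl hdr)
    rw [hrk] at h1
    rcases h1 with h1 | h1 | h1
    · exact KO67.num_exb_o hθ h1
    · exact KO67.num_lin_o hθ h1
    · exact KO67.num_low_o hθ hih h1
  have hs : snp phi S i0 G = ∅ := by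
    by_contra h1
    exact key (Or.inl (Finset.nonempty_iff_ne_empty.mpr h1))
  have hbig : big G ≠ ∅ := fun h1 => key (Or.inr h1)
  have hc0 : (q + X ^ 2 * E0).coeff 0 = 1 := by
    rw [coeff_add, hR.loc.q0, mul_coeff_zero, coeff_X_pow, if_neg (by omega), zero_mul, add_zero]
  have hV0 : D.coeff 0 + ((ld e 2 : (RO ℤ)ˣ) : RO ℤ) * D.coeff S =
      toLaurent (q + X ^ 2 * E0) := by
    rw [hSS, hR.D0, ← map_add, ← mul_assoc, ← sq]
  have hp1 : p < 1 := by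
    by_contra hcon
    push Not at hcon
    have h3 : p⁻¹ ≤ 1 := inv_le_one_of_one_le₀ hcon
    linarith
  rcases KE.lob hPc hR.loc hR.u hR.ne (k := 2) (by omega) with h1 | ⟨b, hab, hb1, hb⟩
  · exfalso
    have h2 : ClassV 1 (D.coeff 0 + ((ld e 2 : (RO ℤ)ˣ) : RO ℤ) * D.coeff S) := by
      refine ⟨le_refl 1, 0, q + X ^ 2 * E0, ?_, ?_, ?_⟩
      · rw [hV0, LaurentPolynomial.T_zero, one_mul]
      · rw [hc0, map_one, norm_one]
      · intro z hz
        rw [KE.ev_map]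
        exact h1 z hz
    have h3 := ((hMV ℤ).1 _ _ h2).2
    have hx : ∀ i, (G i).coeff 0 ≠ 0 := fun i => (fd.st i).1
    obtain ⟨l⟩ := KE.fac_ex fd (by omega)
    have hbg := KE.all_big hClp fp fd hs
    have h4 := H56.one_lt_prod hMm Finset.univ _ hx l (Finset.mem_univ l) (hbg l)
    rw [fd.v00, (hMm ℤ).1 _ _ fd.c0 (Finset.prod_ne_zero_iff.mpr fun i _ => hx i)] at h3
    have h5 := (hMm ℤ).2.1 c
    nlinarith
  · have hb0 : 0 < b := lt_trans ha0 hab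
    have hP' : ClassP b⁻¹ (D.coeff 0 + ((ld e 2 : (RO ℤ)ˣ) : RO ℤ) * D.coeff S) := by
      rw [hV0]
      exact KE.classP_of hb0 hb1 hc0 hb
    obtain ⟨l, K, h4, h5, h6⟩ := KE.good_of hE1 hMV hMm hClp fp fd hs hdr (by omega) hP'
    have h7 := (hih (2 * j) (by omega) b⁻¹ P K ((phO phi S i0).comp (incl K))
      (res K (G l)) h6 h4 (by omega)).1 (even_two_mul j)
    push_cast at h7
    rw [one_div, inv_inv] at h7
    have hbp : b ≤ p := O1.H12.le_of_psi hb0 hp0 (by rw [hpj]; linarith)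
    exact KE.sgn (k := 2) (by omega) hR.loc.q0 hb0 hb hbp hp1

end

/-- Row O1_II. -/
theorem o1ii (hO2m : O2mS) (hO2c : O2cS) (hQs : QsgS) (hNd : Nd3S) (hTa : Ta3S) (hSt : St3S)
    (hSw : Sw3S) (hE2 : E2S) (hVc : VcoS) (hRk : RkUSS) (hPc : PCZS) (hE1 : E1S) (hMV : MVS)
    (hMm : MmulS) (hClp : ClpS) (hFD : FDS) (hSf : SfzS) : O1iiS := by
  intro P L _ _ _ _ _ phi D S i0 h c n G q f e a p j W hS hR hO hn fd hc hsn
  have fp := W.min.fp
  have hrk := W.rk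
  have hj := W.j2
  have hj' : (2 : ℝ) ≤ j := by exact_mod_cast hj
  have h2 : 2 ≤ Module.finrank ℤ L := by omega
  obtain ⟨ha0, ha2, -, -⟩ := KO67.ko_num W
  obtain ⟨t, ht, hms⟩ := masses hMV hNd hQs hR hO.f0 fd hc
  obtain ⟨l, hl⟩ := hsn
  have hmo : MasA (t l) q f := by
    apply mas_one hms _ hl
    intro l' hl'
    obtain ⟨b, j', e1, hj1, q1, F, -, -, -, -, -, h6⟩ := ht l' hl'
    exact h6
  obtain ⟨b, j', e1, hj1, q1, F, hQ, hqF, hF, hF0, ht0, htn⟩ := ht l hl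
  have ht1 : t l = 1 := hO2m q f a p j (t l) hO hn ht0 htn hmo
  rw [ht1] at hmo hF0
  obtain ⟨U, H, E0, pf, hU, hH, hE0, hE00, hD', fp', hS', hR'⟩ :=
    swap hTa hSt hSw hE2 fp h2 hR hO.f0 hQ hqF hF hF0
  have hR2 := hR' (by rw [hn]; omega)
  have hd := c_free hVc hRk hD' hS' pf hU hH hR.loc.q0 hO.f0 (by rw [hn]; omega)
  have h3 := c_neg hPc hE1 hMV hMm hClp hFD hSf fp' hS' hR2 hj hrk W.lt ha2.le W.ih hO.p0
    hO.pj hd
  apply hO2c q f a p j hO hn hmo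
  have h4 : (aeval p (q + X ^ 2 * E0) : ℝ) = (1 - p) * aeval p q + p * aeval p f := by
    have h5 : X ^ 2 * E0 = X * (f - q) := by rw [hE0]; ring
    rw [h5]
    simp only [map_add, map_mul, map_sub, aeval_X]
    ring
  rw [h4] at h3
  exact h3

end Pool.Agent.B5.O1H40
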