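import Pool.Agent.Lib.MP_b5021c_nt.O1.H40.Ms

/-!
# MP_b5021c_nt, ALL `θ`, K ODD, (O1): the content `C1` at the A-load
-/

namespace Pool.Agent.B5.O1H40

open scoped LaurentPolynomial
open Polynomial Pool.Agent.B5
open Pool.Agent.B5.Nr.Sch (Loc)

set_option linter.unusedSectionVars false

/-- A monomial with an integer coefficient. -/
def Mon (x : RO ℤ) : Prop := ∃ (N k : ℤ), x = LaurentPolynomial.C N * LaurentPolynomial.T k

theorem mon_unit {x : RO ℤ} (h : IsUnit x) : Mon x := by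
  obtain ⟨k, u, -, hu⟩ := H36.unit_form x h
  exact ⟨u, k, hu⟩

theorem mon_mul {x y : RO ℤ} (hx : Mon x) (hy : Mon y) : Mon (x * y) := by
  obtain ⟨N, k, rfl⟩ := hx
  obtain ⟨N', k', rfl⟩ := hy
  refine ⟨N * N', k + k', ?_⟩
  rw [map_mul, LaurentPolynomial.T_add]
  ring

theorem mon_prod {ι : Type} (s : Finset ι) (x : ι → RO ℤ) (h : ∀ i ∈ s, Mon (x i)) :
    Mon (∏ i ∈ s, x i) := by
  classical
  induction s using Finset.induction_on with
  | empty => exact ⟨1, 0, by simp⟩
  | insert a s ha ih =>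
    rw [Finset.prod_insert ha]
    exact mon_mul (h a (Finset.mem_insert_self a s))
      (ih fun i hi => h i (Finset.mem_insert_of_mem hi))

theorem mon_of_supp {x : RO ℤ} {k : ℤ} (h : ∀ m : ℤ, x.coeff m ≠ 0 → m = k) : Mon x := by
  refine ⟨x.coeff k, k, ?_⟩
  rw [← LaurentPolynomial.single_eq_C_mul_T]
  apply AddMonoidAlgebra.ext
  ext m
  by_cases hm : m = k
  · rw [hm, AddMonoidAlgebra.coeff_single, Finsupp.single_eq_same]
  · rw [AddMonoidAlgebra.coeff_single, Finsupp.single_eq_of_ne (by exact hm)]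
    by_contra hcon
    exact hm (h m hcon)

theorem mon_zfree {L : Type} [AddCommGroup L] {G : AO ℤ L} (h : ZFree G) : Mon (G.coeff 0) := by
  obtain ⟨q, l, n, hq, h1⟩ := h
  apply mon_of_supp (k := n)
  intro m hm
  have h2 := h1 0 m hm
  rw [map_zero, zero_add] at h2
  exact mul_left_cancel₀ (by exact_mod_cast hq.ne') h2

/-- The content. -/
theorem c1_core {q f : ℤ[X]} {c x : RO ℤ} (hc : ClassV 1 c) (hx : Mon x)
    (hV : toLaurent (q - f) = c * x) (h0 : f.coeff 0 = q.coeff 0) {nn : ℤ}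
    (hn : f.coeff 1 - q.coeff 1 = nn) (hn0 : nn ≠ 0) :
    ∃ (C1 : ℤ[X]) (w : (RO ℤ)ˣ), C1.coeff 0 = 1 ∧ (∀ z : ℂ, ‖z‖ < 1 → aeval z C1 ≠ 0) ∧
      f - q = C nn * X * C1 ∧ c = (w : RO ℤ) * toLaurent C1 := by
  obtain ⟨N, k, rfl⟩ := hx
  obtain ⟨-, m, v, hv, hv0, hvz⟩ := hc
  have hv1 : v.coeff 0 = 1 ∨ v.coeff 0 = -1 := by
    rw [SFH27.norm_emb] at hv0
    have h2 : |v.coeff 0| = 1 := by exact_mod_cast hv0
    exact (abs_eq zero_le_one).mp h2
  obtain ⟨s, hs, hs2⟩ : ∃ s : ℤ, s * v.coeff 0 = 1 ∧ s * s = 1 := by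
    rcases hv1 with h | h
    · exact ⟨1, by rw [h]; norm_num, by norm_num⟩
    · exact ⟨-1, by rw [h]; norm_num, by norm_num⟩
  obtain ⟨E0, hE0⟩ : X ∣ f - q := by
    rw [X_dvd_iff, coeff_sub, h0, sub_self]
  have hE00 : E0.coeff 0 = nn := by
    rw [← hn, ← coeff_sub, hE0, coeff_X_mul]
  have hN : N ≠ 0 := by
    rintro rfl
    rw [map_zero, zero_mul, mul_zero, toLaurent_eq_zero] at hV
    have h2 : f - q = 0 := by rw [← neg_sub, hV, neg_zero]
    rw [h2] at hE0
    have h3 := (mul_eq_zero.mp hE0.symm).resolve_left X_ne_zero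
    rw [h3, coeff_zero] at hE00
    exact hn0 hE00.symm
  have h1 : (LaurentPolynomial.T 1 * toLaurent E0 : RO ℤ) =
      LaurentPolynomial.T (m + k) * toLaurent (C (-N) * v) := by
    have h2 : (LaurentPolynomial.T 1 * toLaurent E0 : RO ℤ) = -toLaurent (q - f) := by
      rw [← map_neg, neg_sub, hE0, map_mul, toLaurent_X]
    rw [h2, hV, hv, LaurentPolynomial.T_add, map_mul, toLaurent_C, map_neg]
    ring
  have hvne : v.coeff 0 ≠ 0 := by
    rcases hv1 with h | h <;> rw [h] <;> norm_num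
  obtain ⟨-, h3⟩ := H56.nf_unique 1 (m + k) E0 (C (-N) * v) (by rw [hE00]; exact hn0)
    (by rw [coeff_C_mul]; exact mul_ne_zero (neg_ne_zero.mpr hN) hvne) h1
  have h4 : nn = -N * v.coeff 0 := by rw [← hE00, h3, coeff_C_mul]
  have hsN : -N = nn * s := by
    rw [h4, mul_assoc, mul_comm (v.coeff 0) s, hs, mul_one]
  have hunit : IsUnit (LaurentPolynomial.C s * LaurentPolynomial.T m : RO ℤ) := by
    refine ⟨⟨LaurentPolynomial.C s * LaurentPolynomial.T m,
      LaurentPolynomial.C s * LaurentPolynomial.T (-m), ?_, ?_⟩, rfl⟩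
    · have h5 : (LaurentPolynomial.C s * LaurentPolynomial.T m *
          (LaurentPolynomial.C s * LaurentPolynomial.T (-m)) : RO ℤ) =
          LaurentPolynomial.C (s * s) * (LaurentPolynomial.T m * LaurentPolynomial.T (-m)) := by
        rw [map_mul]; ring
      rw [h5, hs2, ← LaurentPolynomial.T_add, add_neg_cancel, LaurentPolynomial.T_zero, map_one,
        one_mul]
    · have h5 : (LaurentPolynomial.C s * LaurentPolynomial.T (-m) *
          (LaurentPolynomial.C s * LaurentPolynomial.T m) : RO ℤ) =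
          LaurentPolynomial.C (s * s) * (LaurentPolynomial.T (-m) * LaurentPolynomial.T m) := by
        rw [map_mul]; ring
      rw [h5, hs2, ← LaurentPolynomial.T_add, neg_add_cancel, LaurentPolynomial.T_zero, map_one,
        one_mul]
  refine ⟨C s * v, hunit.unit, by rw [coeff_C_mul, hs], ?_, ?_, ?_⟩
  · intro z hz
    have hs0 : (s : ℂ) ≠ 0 := by
      intro h5
      have h6 : s = 0 := by exact_mod_cast h5
      rw [h6, zero_mul] at hs
      exact zero_ne_one hs
    rw [map_mul, aeval_C]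
    have h5 := hvz z hz
    rw [KE.ev_map] at h5
    exact mul_ne_zero (by simpa using hs0) h5
  · rw [hE0, h3, hsN, map_mul]
    ring
  · rw [IsUnit.unit_spec, map_mul, toLaurent_C, hv]
    have h5 : (LaurentPolynomial.C s * LaurentPolynomial.T m *
        (LaurentPolynomial.C s * toLaurent v) : RO ℤ) =
        LaurentPolynomial.C (s * s) * (LaurentPolynomial.T m * toLaurent v) := by
      rw [map_mul]; ring
    rw [h5, hs2, map_one, one_mul]

end Pool.Agent.B5.O1H40
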