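import Pool.Agent.Lib.MP_b5021c_nt.O1.H40.Two
import Pool.Agent.Lib.MP_b5021c_nt.O1.H40.C1

/-!
# MP_b5021c_nt, ALL `θ`, K ODD, row O1_III: two small factors at the A-load
-/

namespace Pool.Agent.B5.O1H40

open scoped LaurentPolynomial
open Polynomial Pool.Agent.B5
open Pool.Agent.B5.Nr.Sch (Loc)

set_option linter.unusedSectionVars false

section

variable {P L : Type} [Fintype P] [DecidableEq P] [AddCommGroup L] [Module.Free ℤ L]
  [Module.Finite ℤ L] {phi : L →+ (P → ℤ)} {D : AO ℤ L} {S : L} {i0 : P} {eta : (RO ℤ)ˣ}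
  {h : co phi i0 S = 1} {c : RO ℤ} {n : ℕ} {G : Fin n → AO ℤ (Ker (co phi i0))}
  {l : Fin n} {b : Ker (co phi i0)} {j : P} {e1 : (RO ℤ)ˣ}

theorem spt_mem (hs : Spt phi S i0 G l b j e1) : b ∈ supp (G l) := by
  change (G l).coeff b ≠ 0
  have hb : (b : Ker (co phi i0)) ≠ 0 := by
    rintro rfl
    have h1 := hs.bj
    rw [ZeroMemClass.coe_zero, map_zero] at h1
    exact zero_ne_one h1
  have h1 : (G l).coeff b = -((G l).coeff 0 * ((e1⁻¹ : (RO ℤ)ˣ) : RO ℤ)) := by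
    have h2 := hs.eq
    have h3 : (G l).coeff b = (cst ((G l).coeff 0) * (1 - AddMonoidAlgebra.single b
        ((e1⁻¹ : (RO ℤ)ˣ) : RO ℤ)) : AO ℤ (Ker (co phi i0))).coeff b :=
      congrArg (fun x => x.coeff b) h2
    rw [h3, mul_sub, mul_one]
    have h4 : (cst ((G l).coeff 0) * AddMonoidAlgebra.single b ((e1⁻¹ : (RO ℤ)ˣ) : RO ℤ) :
        AO ℤ (Ker (co phi i0))) =
        AddMonoidAlgebra.single b ((G l).coeff 0 * ((e1⁻¹ : (RO ℤ)ˣ) : RO ℤ)) := by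
      unfold cst
      rw [AddMonoidAlgebra.single_mul_single, zero_add]
    rw [h4]
    have h5 : (cst ((G l).coeff 0) : AO ℤ (Ker (co phi i0))).coeff b = 0 := by
      unfold cst
      rw [AddMonoidAlgebra.coeff_single, Finsupp.single_eq_of_ne hb]
    have h6 : (AddMonoidAlgebra.single b ((G l).coeff 0 * ((e1⁻¹ : (RO ℤ)ˣ) : RO ℤ)) :
        AO ℤ (Ker (co phi i0))).coeff b = (G l).coeff 0 * ((e1⁻¹ : (RO ℤ)ˣ) : RO ℤ) := by
      rw [AddMonoidAlgebra.coeff_single, Finsupp.single_eq_same]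
    have h7 : ((cst ((G l).coeff 0) : AO ℤ (Ker (co phi i0))) - AddMonoidAlgebra.single b
        ((G l).coeff 0 * ((e1⁻¹ : (RO ℤ)ˣ) : RO ℤ))).coeff b =
        (cst ((G l).coeff 0) : AO ℤ (Ker (co phi i0))).coeff b -
        (AddMonoidAlgebra.single b ((G l).coeff 0 * ((e1⁻¹ : (RO ℤ)ˣ) : RO ℤ)) :
          AO ℤ (Ker (co phi i0))).coeff b := rfl
    rw [h7, h5, h6, zero_sub]
  rw [h1]
  exact neg_ne_zero.mpr (mul_ne_zero hs.u0.ne_zero (Units.ne_zero _))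

end

/-- Row O1_III. -/
theorem o1iii (hO43 : O43S) (hO32 : O32aS) (hOf1 : Of1S) (hQs : QsgS) (hNd : Nd3S) (hTa : Ta3S)
    (hSt : St3S) (hSw : Sw3S) (hE2 : E2S) (hVc : VcoS) (hRk : RkUSS) (hMV : MVS)
    (hClp : ClpS) : O1iiiS := by
  classical
  intro P L _ _ _ _ _ phi D S i0 h c n G q f e a p j W hS hR hO hcase fd hc hdr hcard hbg
  have fp := W.min.fp
  have hrk := W.rk
  have hj := W.j2
  have h2 : 2 ≤ Module.finrank ℤ L := by omega
  obtain ⟨ha0, ha2, -, -⟩ := KO67.ko_num W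
  obtain ⟨t, ht, hms⟩ := masses hMV hNd hQs hR hO.f0 fd hc
  obtain ⟨l1, l2, hl12, hsn⟩ := Finset.card_eq_two.mp hcard
  have hl1 : l1 ∈ snp phi S i0 G := by rw [hsn]; simp
  have hl2 : l2 ∈ snp phi S i0 G := by rw [hsn]; simp
  rw [hsn, Finset.sum_pair hl12] at hms
  obtain ⟨b1, j1, e1, hj1, q1, F1, hQ1, hqF1, hF1, hF10, ht10, ht1n⟩ := ht l1 hl1
  obtain ⟨b2, j2, e2, hj2, q2, F2, hQ2, hqF2, hF2, hF20, ht20, ht2n⟩ := ht l2 hl2
  -- the content
  obtain ⟨i1, hbi, hzf⟩ := hbg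
  have hmon : Mon (∏ i, (G i).coeff 0) := by
    apply mon_prod
    intro i _
    by_cases hi : 1 < M ((G i).coeff 0)
    · have h3 : i ∈ big G := by
        unfold big
        exact Finset.mem_filter.mpr ⟨Finset.mem_univ i, hi⟩
      rw [hbi, Finset.mem_singleton] at h3
      rw [h3]
      exact mon_zfree hzf
    · have h3 : i ∈ snp phi S i0 G := by
        unfold snp
        exact Finset.mem_filter.mpr ⟨Finset.mem_univ i, hi,
          ((hClp ℤ P L phi D S i0 (-e) h c n G fp fd).2 i).1⟩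
      obtain ⟨b', j', e', hj', q', F', hQ', -⟩ := ht i h3
      exact mon_unit hQ'.sp.u0
  have hV : (toLaurent (q - f) : RO ℤ) = c * ∏ i, (G i).coeff 0 := by
    rw [← KE.V0_A hR, fd.v00]
  have h00 : f.coeff 0 = q.coeff 0 := by rw [hO.f0, hR.loc.q0]
  rcases hcase with ⟨rfl, hn⟩ | ⟨rfl, hn⟩
  · obtain ⟨C1, w, hC0, hCz, hCe, -⟩ := c1_core hc hmon hV h00 hn (by norm_num)
    obtain ⟨g1, g2⟩ := hO32 q f C1 a p (t l1) (t l2) hO hC0 hCz hCe ht10 ht1n ht20 ht2n hms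
    rw [g1] at hF10
    rw [g2] at hF20
    obtain ⟨U1, H1, E0, pf1, hU1, hH1, hE0, hE00, hD', fp', hS', hR'⟩ :=
      swap hTa hSt hSw hE2 fp h2 hR hO.f0 hQ1 hqF1 hF1 hF10
    obtain ⟨U2, H2, E0', pf2, -⟩ :=
      swap hTa hSt hSw hE2 fp h2 hR hO.f0 hQ2 hqF2 hF2 hF20
    have hR2 := hR' (by rw [hn]; norm_num)
    have hb12 : phi (b1 : L) j2 = 0 := hQ2.sp.other l1 hl12 b1 (spt_mem hQ1.sp)
    have hUH : U1.coeff 0 ≠ H1.coeff 0 := by
      rw [hU1, hH1]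
      intro h3
      have h4 := toLaurent_injective h3
      have h5 := congrArg (fun p : ℤ[X] => p.coeff 0) h4
      simp only [coeff_sub, hR.loc.q0, hO.f0] at h5
      norm_num at h5
    have hus := us_two hVc hD' pf1 pf2 hQ2.sp.bj hb12 hUH
    have hld : ld (ld (-e) (-1)) 1 = -e := by
      rw [ld_ld, neg_add_cancel, ld_zero]
    have hd : Dgr phi (swp S (b1 : L) (-e) e1 U1 H1) S (ld (ld (-e) (-1)) 1) 0 := by
      rw [hld]
      exact dgr_of_us hRk hD' hS' hus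
    have h3 := hOf1 P L phi _ S q E0 (ld (-e) (-1)) a 3 fp' hS' hR2 ha2.le
      (by rw [hE00, hn]) (by norm_num) hrk W.ih hd
    have h4 := W.lt
    have h5 := mul_le_mul_of_nonneg_right h3 ha0.le
    rw [inv_mul_cancel₀ ha0.ne'] at h5
    linarith
  · obtain ⟨C1, w, hC0, hCz, hCe, -⟩ := c1_core hc hmon hV h00 hn (by norm_num)
    exact hO43 q f C1 a p (t l1) (t l2) hO hC0 hCz hCe ht10 ht1n ht20 ht2n hms

end Pool.Agent.B5.O1H40
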