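import Pool.Agent.Lib.MP_b5021c_nt.IfaceO1
import Pool.Agent.Lib.MP_b5021c_nt.KO.H67.O2

/-!
# MP_b5021c_nt, ALL `θ`, K ODD, row KO_O1
-/

namespace Pool.Agent.B5.O1H40

open scoped LaurentPolynomial
open Polynomial Pool.Agent.B5
open Pool.Agent.B5.Nr.Sch (Loc)
open Pool.Agent.B5.Nr (TrezS)

/-- Row KO_O1. -/
theorem oo1 (hFD : FDS) (hTr : TrezS) (hWoo : WooS) (hBg : O1bS) (hCnt : O1cS) (hI : O1iS)
    (hII : O1iiS) (hIII : O1iiiS) : Oo1S := by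
  intro P L _ _ _ _ _ phi D S q f e a j W hS hR hu hB hA
  have hD := W.min.fp.dd
  have hrk := W.rk
  have hj := W.j2
  obtain ⟨p, hO⟩ := hBg P L phi D S q f e a j W hS hR hu hB
  obtain ⟨E, hE, hE0, hEpos, hEz⟩ := KE.typa hR.loc hu hR.ne
  have hn1 := KO67.n_ne_one_o hTr W hS hR hu
  have hn2 : 2 ≤ f.coeff 1 - q.coeff 1 := by omega
  have hnj := hWoo q f a p j hR.loc hu hj hO.p0 hO.pj hO.ap W.lt (by omega) hO.B
  obtain ⟨i0, h⟩ := KE.exists_port hD hS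
  obtain ⟨c, n, G, fd⟩ := hFD ℤ P L phi D S i0 (-e) h
    ⟨hD, by omega, hS, h, KE.V0_ne_A hR⟩
  have hdr := hA i0 h
  obtain ⟨hc, h1 | h1 | h1⟩ := hCnt P L phi D S i0 h c n G q f e a p j W hR hO hn2 hnj fd hdr
  · exact hI P L phi D S i0 h c n G q f e a p j W hS hR hO h1.1 h1.2
  · exact hII P L phi D S i0 h c n G q f e a p j W hS hR hO h1.1 fd hc h1.2
  · exact hIII P L phi D S i0 h c n G q f e a p j W hS hR hO h1.2.2 fd hc hdr h1.1 h1.2.1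

end Pool.Agent.B5.O1H40
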