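import Pool.Agent.Lib.MP_b5021c_nt.O1.H40.Swp
import Pool.Agent.Lib.MP_b5021c_nt.KO.H67.Bas
import Pool.Agent.Lib.MP_b5021c_nt.OF.H40.Dat
import Pool.Agent.Lib.MP_b5021c_nt.SF.H27.Bas

/-!
# MP_b5021c_nt, ALL `θ`, K ODD, (O1): the masses at the A-load and the swap (finding 3590)
-/

namespace Pool.Agent.B5.O1H40

open scoped LaurentPolynomial
open Polynomial Pool.Agent.B5
open Pool.Agent.B5.H40 (uT)
open Pool.Agent.B5.Nr.Sch (Loc)
open Pool.Agent.MP_b5021c_nt (nz)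

set_option linter.unusedSectionVars false

theorem ld_ld (e : (RO ℤ)ˣ) (k l : ℤ) : ld (ld e k) l = ld e (k + l) := by
  apply Units.ext
  rw [KE.ld_val, KE.ld_val, KE.ld_val, ← mul_assoc, ← LaurentPolynomial.T_add, add_comm l k]

theorem ld_zero (e : (RO ℤ)ˣ) : ld e 0 = e := by
  apply Units.ext
  rw [KE.ld_val, LaurentPolynomial.T_zero, one_mul]

theorem ld_eq (e : (RO ℤ)ˣ) (k : ℤ) : ld e k = uT (1 : ℤˣ) k * e := rfl

section

variable {P L : Type} [Fintype P] [DecidableEq P] [AddCommGroup L] [Module.Free ℤ L]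
  [Module.Finite ℤ L] {phi : L →+ (P → ℤ)} {D : AO ℤ L} {S : L} {i0 : P}
  {h : co phi i0 S = 1} {c : RO ℤ} {n : ℕ} {G : Fin n → AO ℤ (Ker (co phi i0))}
  {q f : ℤ[X]} {e : (RO ℤ)ˣ} {a : ℝ}

theorem qf_ne (hR : RN D S q f e a) : q - f ≠ 0 := by
  intro h0
  obtain ⟨z, -, hz⟩ := hR.ne
  apply hz
  rw [sub_eq_zero.mp h0]

/-- `q - f` has no double zero on the circle. -/
theorem no_double (hNd : Nd3S) (hR : RN D S q f e a) (hu : f.coeff 0 = 1) :
    ∀ z0 : ℂ, ‖z0‖ = 1 → ¬ (X - C z0) ^ 2 ∣ (q - f).map (Coef.emb : ℤ →+* ℂ) := by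
  intro z0 hz0
  have hLD : LDz q f := OF40.ldz_of hR.loc
  have hve : ∀ z : ℂ, (cpz (q - f)).eval z = (cpz q).eval z - (cpz f).eval z := by
    intro z
    rw [cpz, Polynomial.map_sub, eval_sub]
    rfl
  have hv0 : cpz (q - f) ≠ 0 := by
    rw [cpz, Ne, Polynomial.map_eq_zero_iff emb_inj]
    exact qf_ne hR
  refine hNd (cpz q) (cpz (q - f)) z0 hLD.nzq hLD.qc ?_ hv0 ⟨0, by simp, ?_⟩ hz0
  · intro z hz
    rw [hve z, sub_mul, Complex.sub_re, Complex.mul_conj, Complex.normSq_eq_norm_sq,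
      Complex.ofReal_re]
    have h1 := hLD.le z hz
    have h2 := Complex.abs_re_le_norm ((cpz f).eval z * (starRingEnd ℂ) ((cpz q).eval z))
    rw [norm_mul, Complex.norm_conj] at h2
    have h3 := (abs_le.mp h2).2
    have h4 := norm_nonneg ((cpz q).eval z)
    nlinarith
  · rw [hve 0, ← coeff_zero_eq_eval_zero, ← coeff_zero_eq_eval_zero, cpz, cpz, coeff_map,
      coeff_map, hR.loc.q0, hu, sub_self]

/-- The masses at the A-load. -/
theorem masses (hMV : MVS) (hNd : Nd3S) (hQs : QsgS) (hR : RN D S q f e a) (hu : f.coeff 0 = 1)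
    (fd : FD phi D S i0 (-e) h c n G) (hc : ClassV 1 c) :
    ∃ t : Fin n → RO ℤ,
      (∀ l ∈ snp phi S i0 G, ∃ (b : Ker (co phi i0)) (j : P) (e1 : (RO ℤ)ˣ)
        (hj : co (phK phi (co phi i0)) j b = 1)
        (q1 F : AO ℤ (Ker (co (phK phi (co phi i0)) j))),
          QC phi D S i0 (-e) h c n G l b j e1 hj q1 ∧ q1 = cst (c * (G l).coeff 0) * F ∧
          NnT F ∧ F.coeff 0 = t l ∧ t l ≠ 0 ∧ NnR (t l)) ∧
      MasA (∑ l ∈ snp phi S i0 G, t l) q f := by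
  have hMc : M c = 1 := ((hMV ℤ).1 _ _ hc).2
  have hV := KE.V0_A hR
  obtain ⟨t, ht, hms⟩ := hQs ℤ P L phi D S i0 (-e) h c n G fd hMc 0 (q - f)
    (by rw [hV, LaurentPolynomial.T_zero, one_mul]) (no_double hNd hR hu)
  refine ⟨t, ht, fun z => ?_⟩
  have h1 := hms z
  rw [hV, hR.D0, KE.evR_poly, KE.evR_poly, map_sub (aeval (z : ℂ)) q f] at h1
  rw [map_sum, Complex.re_sum, map_sub (aeval (z : ℂ)) q f]
  refine le_trans h1 (le_of_eq ?_)
  generalize (aeval (z : ℂ) q : ℂ) = x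
  generalize (aeval (z : ℂ) f : ℂ) = y
  rw [← Complex.normSq_eq_norm_sq, ← Complex.normSq_eq_norm_sq, ← Complex.normSq_eq_norm_sq,
    Complex.normSq_apply, Complex.normSq_apply, Complex.normSq_apply]
  simp only [Complex.mul_re, Complex.conj_re, Complex.conj_im, Complex.sub_re, Complex.sub_im]
  ring

/-- One mass out of a sum. -/
theorem mas_one {ι : Type} {s : Finset ι} {t : ι → RO ℤ} (hm : MasA (∑ l ∈ s, t l) q f)
    (ht : ∀ l ∈ s, NnR (t l)) {l : ι} (hl : l ∈ s) : MasA (t l) q f := by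
  intro z
  refine le_trans ?_ (hm z)
  apply mul_le_mul_of_nonneg_right _ (by positivity)
  rw [map_sum, Complex.re_sum]
  exact Finset.single_le_sum (f := fun l => (evR z (t l)).re) (fun i hi => (ht i hi z).2) hl

/-- The swapped element at an A-load with a mass one. -/
theorem swap (hTa : Ta3S) (hSt : St3S) (hSw : Sw3S) (hE2 : E2S) (fp : FP phi D)
    (h2 : 2 ≤ Module.finrank ℤ L) (hR : RN D S q f e a)
    (hu : f.coeff 0 = 1) {l : Fin n} {b : Ker (co phi i0)} {j : P} {e1 : (RO ℤ)ˣ}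
    {hj : co (phK phi (co phi i0)) j b = 1} {q1 F : AO ℤ (Ker (co (phK phi (co phi i0)) j))}
    (hQ : QC phi D S i0 (-e) h c n G l b j e1 hj q1) (hqF : q1 = cst (c * (G l).coeff 0) * F)
    (hF : NnT F) (hF1 : F.coeff 0 = 1) :
    ∃ (U H : AO ℤ L) (E0 : ℤ[X]), PairF phi D S (b : L) (-e) e1 U H ∧
      U.coeff 0 = toLaurent (q - f) ∧ H.coeff 0 = toLaurent f ∧ f - q = X * E0 ∧
      E0.coeff 0 = f.coeff 1 - q.coeff 1 ∧ DD phi (swp S (b : L) (-e) e1 U H) ∧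
      FP phi (swp S (b : L) (-e) e1 U H) ∧ Ray (swp S (b : L) (-e) e1 U H) S ∧
      (1 ≤ f.coeff 1 - q.coeff 1 →
        RN (swp S (b : L) (-e) e1 U H) S q E0 (ld (-e) (-1)) a) := by
  have hD := fp.dd
  obtain ⟨d0, -⟩ := hE2 ℤ P L phi D hD h2
  have F1 : F = 1 := hTa ℤ _ F hF hF1
  have Qg : q1 = cst (c * (G l).coeff 0) := by rw [hqF, F1, mul_one]
  have hS1 : ((-e : (RO ℤ)ˣ) : RO ℤ) * D.coeff S = -toLaurent f := by
    rw [Units.val_neg, neg_mul, hR.DS]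
  have hne : D.coeff 0 + 2 * (((-e : (RO ℤ)ˣ) : RO ℤ) * D.coeff S) ≠ 0 := by
    rw [hS1, hR.D0]
    have h1 : (toLaurent q : RO ℤ) + 2 * -toLaurent f = toLaurent (q - f - f) := by
      rw [map_sub, map_sub]
      ring
    rw [h1, Ne, toLaurent_eq_zero]
    intro h3
    have h4 := congrArg (fun p : ℤ[X] => p.coeff 0) h3
    simp only [coeff_sub, coeff_zero, hR.loc.q0, hu] at h4
    norm_num at h4
  obtain ⟨U, H, pf, hU0, hH0⟩ := hSt ℤ P L phi D S i0 (-e) h c n G l b j e1 hj q1 hQ Qg hne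
  obtain ⟨hDD, hRb, hRS, hc0, hcb, hcS⟩ := hSw ℤ P L phi D S (b : L) (-e) e1 U H hD pf d0
  have hU0' : U.coeff 0 = toLaurent (q - f) := by rw [hU0, KE.V0_A hR]
  have hH0' : H.coeff 0 = toLaurent f := by rw [hH0, hS1, neg_neg]
  obtain ⟨E0, hE0⟩ : X ∣ f - q := by
    rw [X_dvd_iff, coeff_sub, hu, hR.loc.q0, sub_self]
  have hE00 : E0.coeff 0 = f.coeff 1 - q.coeff 1 := by
    rw [← coeff_sub, hE0, coeff_X_mul]
  refine ⟨U, H, E0, pf, hU0', hH0', hE0, hE00, hDD, fp_swp fp pf hDD, hRS, fun hn => ?_⟩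
  have hSS : ((-e : (RO ℤ)ˣ) : RO ℤ) * (swp S (b : L) (-e) e1 U H).coeff S =
      toLaurent (X * E0) := by
    rw [hcS, hU0', ← map_neg, neg_sub, hE0]
  have hSS' : ((ld (-e) (-1) : (RO ℤ)ˣ) : RO ℤ) * (swp S (b : L) (-e) e1 U H).coeff S =
      toLaurent E0 := by
    rw [KE.ld_val, mul_assoc, hSS, map_mul, toLaurent_X, ← mul_assoc, ← LaurentPolynomial.T_add,
      neg_add_cancel, LaurentPolynomial.T_zero, one_mul]
  have hnm : ∀ z : Circle, ‖evR z ((swp S (b : L) (-e) e1 U H).coeff S)‖ =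
      ‖aeval (z : ℂ) E0‖ := by
    intro z
    have h3 := congrArg (fun x => ‖evR z x‖) hSS'
    simp only [map_mul, norm_mul] at h3
    rw [KE.evR_poly] at h3
    rw [← h3]
    rw [H36.norm_evR_unit z _ (ld (-e) (-1)).isUnit, one_mul]
  obtain ⟨-, -, -, -, -, hr⟩ := hE2 ℤ P L phi _ hDD h2
  obtain ⟨hle, z0, hz0⟩ := hr S hRS
  refine ⟨⟨hR.loc.a0, hR.loc.a1, hR.loc.q0, ?_, hR.loc.s⟩, ⟨(z0 : ℂ), Circle.norm_coe z0, ?_⟩,
    by rw [hE00]; exact hn, by rw [hc0, hR.D0], hSS'⟩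
  · intro z hz
    obtain ⟨w, rfl⟩ := KE.circle_of z hz
    have h3 := hle w
    rw [hnm, hc0, hR.D0, KE.evR_poly] at h3
    exact h3
  · rw [hnm, hc0, hR.D0, KE.evR_poly] at hz0
    exact hz0

end

end Pool.Agent.B5.O1H40
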