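import Pool.Agent.Lib.MP_b5021c_nt.IfaceO1
import Pool.Agent.Lib.MP_b5021c_nt.IfaceOF
import Pool.Agent.Lib.MP_b5021c_nt.B.H96.E3Sw
import Pool.Agent.Lib.MP_b5021c_nt.KE.H96.Ray

/-!
# MP_b5021c_nt, ALL `θ`, K ODD: the swapped element at an A-load (finding 3590)
-/

namespace Pool.Agent.B5.O1H40

open scoped LaurentPolynomial
open Polynomial Pool.Agent.B5
open Pool.Agent.B5.H96 (four Fr Z2 Av FrP)
open Pool.Agent.B5.H40 (uT)

set_option linter.unusedSectionVars false

section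

variable {P L : Type} [Fintype P] [DecidableEq P] [AddCommGroup L] [Module.Free ℤ L]
  [Module.Finite ℤ L] {phi : L →+ (P → ℤ)} {D : AO ℤ L} {S b : L} {eta e : (RO ℤ)ˣ}
  {U H : AO ℤ L}

theorem frp (hi : Function.Injective phi) (hP : PairF phi D S b eta e U H) :
    ∃ jb jS, FrP phi S b jb jS := by
  obtain ⟨jb, hjb⟩ := H96.exists_port phi hi b hP.bb hP.b0
  obtain ⟨jS, hjS⟩ := H96.exists_port phi hi S hP.bS hP.S0
  exact ⟨jb, jS, hi, hP.bS, hP.bb, hP.dis, hjb, hjS⟩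

theorem sgl (b S : L) (e eta : (RO ℤ)ˣ) :
    (AddMonoidAlgebra.single (b + S) ((e⁻¹ * eta⁻¹ : (RO ℤ)ˣ) : RO ℤ) : AO ℤ L) =
      AddMonoidAlgebra.single b ((e⁻¹ : (RO ℤ)ˣ) : RO ℤ) *
        AddMonoidAlgebra.single S ((eta⁻¹ : (RO ℤ)ˣ) : RO ℤ) := by
  rw [AddMonoidAlgebra.single_mul_single, Units.val_mul]

theorem pair_four (hP : PairF phi D S b eta e U H) :
    D = four b S e⁻¹ eta⁻¹ (U + H) (-H) (-H) (H - U) := by
  conv_lhs => rw [hP.eq]
  rw [sgl, four]
  ring

theorem swp_four (S b : L) (eta e : (RO ℤ)ˣ) (U H : AO ℤ L) :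
    swp S b eta e U H = four b S e⁻¹ eta⁻¹ (H + U) (-U) (-U) (U - H) := by
  rw [swp, sgl, four]
  ring

/-- Every exponent of one element is an exponent of the other or a sum of two. -/
theorem gen {k1 k2 : L →+ ℤ} (fr : Fr k1 k2 b S) (x y : (RO ℤ)ˣ) {U H : AO ℤ L}
    (zU : Z2 k1 k2 U) (zH : Z2 k1 k2 H) (hU : U.coeff 0 ≠ 0) :
    ∀ a ∈ supp (four b S x y (U + H) (-H) (-H) (H - U)),
      a ∈ supp (four b S x y (H + U) (-U) (-U) (U - H)) ∨
      ∃ a1 ∈ supp (four b S x y (H + U) (-U) (-U) (U - H)),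
        ∃ a2 ∈ supp (four b S x y (H + U) (-U) (-U) (U - H)), a = a1 + a2 := by
  intro a ha
  have z0 := H96.z2_add zH zU
  have z1 := H96.z2_neg zU
  have z3 := H96.z2_sub zU zH
  have e0 : k1 0 = 0 := map_zero k1
  have e0' : k2 0 = 0 := map_zero k2
  have hb : b ∈ supp (four b S x y (H + U) (-U) (-U) (U - H)) := by
    have h1 := H96.four_c1 fr x y z0 z1 z3 e0 e0' (F1 := -U)
    rw [add_zero] at h1
    change _ ≠ _
    rw [h1]
    exact mul_ne_zero x.ne_zero (neg_ne_zero.mpr hU)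
  have hS : S ∈ supp (four b S x y (H + U) (-U) (-U) (U - H)) := by
    have h1 := H96.four_c2 fr x y z0 z1 z3 e0 e0' (F2 := -U)
    rw [add_zero] at h1
    change _ ≠ _
    rw [h1]
    exact mul_ne_zero y.ne_zero (neg_ne_zero.mpr hU)
  rcases H96.four_supp x y ha with h | ⟨a', h, rfl⟩ | ⟨a', h, rfl⟩ | ⟨a', h, rfl⟩
  · left
    have hz := H96.z2_add zU zH a h
    change _ ≠ _
    rw [H96.four_c0 fr x y z1 z1 z3 hz.1 hz.2, add_comm]
    exact h
  · have hz := H96.z2_neg zH a' h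
    by_cases h1 : (H + U).coeff a' = 0
    · left
      change _ ≠ _
      rw [H96.four_c1 fr x y z0 z1 z3 hz.1 hz.2]
      apply mul_ne_zero x.ne_zero
      intro h2
      apply h
      have h3 : U.coeff a' = 0 := neg_eq_zero.mp h2
      have h4 : H.coeff a' + U.coeff a' = 0 := h1
      rw [h3, add_zero] at h4
      change -(H.coeff a') = 0
      rw [h4, neg_zero]
    · right
      refine ⟨b, hb, a', ?_, rfl⟩
      change _ ≠ _
      rw [H96.four_c0 fr x y z1 z1 z3 hz.1 hz.2]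
      exact h1
  · have hz := H96.z2_neg zH a' h
    by_cases h1 : (H + U).coeff a' = 0
    · left
      change _ ≠ _
      rw [H96.four_c2 fr x y z0 z1 z3 hz.1 hz.2]
      apply mul_ne_zero y.ne_zero
      intro h2
      apply h
      have h3 : U.coeff a' = 0 := neg_eq_zero.mp h2
      have h4 : H.coeff a' + U.coeff a' = 0 := h1
      rw [h3, add_zero] at h4
      change -(H.coeff a') = 0
      rw [h4, neg_zero]
    · right
      refine ⟨S, hS, a', ?_, rfl⟩
      change _ ≠ _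
      rw [H96.four_c0 fr x y z1 z1 z3 hz.1 hz.2]
      exact h1
  · left
    have hz := H96.z2_sub zH zU a' h
    change _ ≠ _
    rw [H96.four_c3 fr x y z0 z1 z1 hz.1 hz.2]
    apply mul_ne_zero (mul_ne_zero x.ne_zero y.ne_zero)
    intro h2
    apply h
    have h3 : U.coeff a' - H.coeff a' = 0 := h2
    change H.coeff a' - U.coeff a' = 0
    linear_combination -h3

/-- Equal spans of zero sets. -/
theorem span_eq {A B : Set L} (lam : L →+ ℤ) (hB : ∀ a ∈ B, 0 ≤ lam a)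
    (h1 : ∀ a ∈ A, a ∈ B ∨ ∃ a1 ∈ B, ∃ a2 ∈ B, a = a1 + a2) :
    Submodule.span ℤ {a | a ∈ A ∧ lam a = 0} ≤ Submodule.span ℤ {a | a ∈ B ∧ lam a = 0} := by
  rw [Submodule.span_le]
  rintro a ⟨ha, h0⟩
  rcases h1 a ha with h | ⟨a1, h2, a2, h3, rfl⟩
  · exact Submodule.subset_span ⟨h, h0⟩
  · have g1 := hB a1 h2
    have g2 := hB a2 h3
    rw [map_add] at h0
    exact Submodule.add_mem _ (Submodule.subset_span ⟨h2, by omega⟩)
      (Submodule.subset_span ⟨h3, by omega⟩)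

theorem nn_of {A B : Set L} (lam : L →+ ℤ) (hB : ∀ a ∈ B, 0 ≤ lam a)
    (h1 : ∀ a ∈ A, a ∈ B ∨ ∃ a1 ∈ B, ∃ a2 ∈ B, a = a1 + a2) : ∀ a ∈ A, 0 ≤ lam a := by
  intro a ha
  rcases h1 a ha with h | ⟨a1, h2, a2, h3, rfl⟩
  · exact hB a h
  · have g1 := hB a1 h2
    have g2 := hB a2 h3
    rw [map_add]
    omega

theorem rk_zero_eq {A B : Set L} (lam : L →+ ℤ) (hA : ∀ a ∈ A, 0 ≤ lam a)
    (hB : ∀ a ∈ B, 0 ≤ lam a) (h1 : ∀ a ∈ A, a ∈ B ∨ ∃ a1 ∈ B, ∃ a2 ∈ B, a = a1 + a2)
    (h2 : ∀ a ∈ B, a ∈ A ∨ ∃ a1 ∈ A, ∃ a2 ∈ A, a = a1 + a2) :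
    rk {a | a ∈ A ∧ lam a = 0} = rk {a | a ∈ B ∧ lam a = 0} := by
  unfold rk
  rw [le_antisymm (span_eq lam hB h1) (span_eq lam hA h2)]

/-- The swapped element has facet ports. -/
theorem fp_swp (fp : FP phi D) (hP : PairF phi D S b eta e U H)
    (hD' : DD phi (swp S b eta e U H)) : FP phi (swp S b eta e U H) := by
  obtain ⟨jb, jS, fr'⟩ := frp fp.dd.inj hP
  have fr := fr'.fr
  have zU := fr'.z2 (F := U) hP.sU
  have zH := fr'.z2 (F := H) hP.sH
  have h1 := gen fr e⁻¹ eta⁻¹ zU zH hP.U0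
  have h2 := gen fr e⁻¹ eta⁻¹ zH zU hP.H0
  rw [← swp_four S b eta e U H, ← pair_four hP] at h1
  rw [← swp_four S b eta e U H, ← pair_four hP] at h2
  refine ⟨hD', fun i => ⟨(fp.fac i).1, ?_⟩, fun lam hl hl0 hrk => ?_⟩
  · have h3 := rk_zero_eq (A := supp (swp S b eta e U H)) (B := supp D) (co phi i)
      (fun a ha => by
        rcases hD'.bin a ha i with h | h
        · exact le_of_eq h.symm
        · change 0 ≤ phi a i
          rw [h]; norm_num)
      (fun a ha => by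
        rcases fp.dd.bin a ha i with h | h
        · exact le_of_eq h.symm
        · change 0 ≤ phi a i
          rw [h]; norm_num) h2 h1
    have h4 := (fp.fac i).2
    rw [← h4]
    exact congrArg (· + 1) h3
  · have hl' : ∀ a ∈ supp (swp S b eta e U H), 0 ≤ lam a := fun a ha =>
      hl a (Finsupp.mem_support_iff.mpr ha)
    have hl2 : ∀ a ∈ supp D, 0 ≤ lam a := nn_of lam hl' h1
    have h3 := rk_zero_eq (A := supp (swp S b eta e U H)) (B := supp D) lam hl' hl2 h2 h1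
    apply fp.all lam (fun a ha => hl2 a (Finsupp.mem_support_iff.mp ha)) hl0
    rw [← h3]
    exact hrk

/-! ## The loads of the swapped element -/

theorem mem_us {G : AO ℤ L} {S : L} {eta : (RO ℤ)ˣ} {a : L} (h : vco eta S G a ≠ 0) :
    a ∈ US eta S G :=
  ⟨1, one_ne_zero, by
    rw [one_smul]
    exact Submodule.subset_span (Set.mem_insert_of_mem _ h)⟩

theorem S_us {G : AO ℤ L} {S : L} {eta : (RO ℤ)ˣ} : S ∈ US eta S G :=
  ⟨1, one_ne_zero, by
    rw [one_smul]
    exact Submodule.subset_span (Set.mem_insert _ _)⟩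

/-- The coefficients of the swapped element. -/
theorem swp_co {jb jS : P} (fr' : FrP phi S b jb jS) (hP : PairF phi D S b eta e U H) {a : L}
    (h1 : phi a jb = 0) (h2 : phi a jS = 0) :
    (swp S b eta e U H).coeff a = H.coeff a + U.coeff a ∧
    (eta : RO ℤ) * (swp S b eta e U H).coeff (S + a) = -(U.coeff a) ∧
    (e : RO ℤ) * (swp S b eta e U H).coeff (b + a) = -(U.coeff a) ∧
    (e : RO ℤ) * ((eta : RO ℤ) * (swp S b eta e U H).coeff (b + S + a)) =
      U.coeff a - H.coeff a := by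
  have fr := fr'.fr
  have zU := fr'.z2 (F := U) hP.sU
  have zH := fr'.z2 (F := H) hP.sH
  have z0 := H96.z2_add zH zU
  have z1 := H96.z2_neg zU
  have z3 := H96.z2_sub zU zH
  have e1 : (eta : RO ℤ) * ((eta⁻¹ : (RO ℤ)ˣ) : RO ℤ) = 1 := Units.mul_inv eta
  have e2 : (e : RO ℤ) * ((e⁻¹ : (RO ℤ)ˣ) : RO ℤ) = 1 := Units.mul_inv e
  rw [swp_four]
  refine ⟨H96.four_c0 fr _ _ z1 z1 z3 h1 h2, ?_, ?_, ?_⟩
  · rw [H96.four_c2 fr _ _ z0 z1 z3 h1 h2, ← mul_assoc, e1, one_mul]
    rfl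
  · rw [H96.four_c1 fr _ _ z0 z1 z3 h1 h2, ← mul_assoc, e2, one_mul]
    rfl
  · rw [H96.four_c3 fr _ _ z0 z1 z1 h1 h2]
    have h3 : (U - H).coeff a = U.coeff a - H.coeff a := rfl
    rw [h3]
    linear_combination ((e : RO ℤ) * ((e⁻¹ : (RO ℤ)ˣ) : RO ℤ) * (U.coeff a - H.coeff a)) * e1 +
      (U.coeff a - H.coeff a) * e2

/-- The closed coefficients at the load `r eta`. -/
theorem vco_swp (hV : VcoS) (hD' : DD phi (swp S b eta e U H)) (hP : PairF phi D S b eta e U H)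
    (r : (RO ℤ)ˣ) {a : L} (ha : ∀ i, phi a i = 0 ∨ (phi S i = 0 ∧ phi b i = 0)) :
    vco (r * eta) S (swp S b eta e U H) a = H.coeff a + (1 - r) * U.coeff a ∧
    (e : RO ℤ) * vco (r * eta) S (swp S b eta e U H) (b + a) =
      -((r : RO ℤ) * H.coeff a + (1 - r) * U.coeff a) := by
  obtain ⟨jb, jS, fr'⟩ := frp hD'.inj hP
  have h1 : phi a jb = 0 := by
    rcases ha jb with h | h
    · exact h
    · have := fr'.pb
      omega
  have h2 : phi a jS = 0 := by
    rcases ha jS with h | h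
    · exact h
    · have := fr'.pS
      omega
  obtain ⟨c0, c1, c2, c3⟩ := swp_co fr' hP h1 h2
  obtain ⟨-, -, v3, -, -⟩ := hV ℤ P L phi (swp S b eta e U H) S (r * eta) hD'.inj hD'.bin hP.bS
    hP.S0
  constructor
  · rw [v3 a (fun i => by
      rcases ha i with h | h
      · exact Or.inl h
      · exact Or.inr h.1), add_comm a S, Units.val_mul, mul_assoc, c1, c0]
    ring
  · rw [v3 (b + a) (fun i => by
      rw [map_add, Pi.add_apply]
      rcases hP.dis i with h | h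
      · exact Or.inr h
      · rcases ha i with h3 | h3
        · left; rw [h, h3, add_zero]
        · exact Or.inr h3.1), Units.val_mul]
    have h3 : b + a + S = b + S + a := by abel
    rw [h3]
    linear_combination c2 + (r : RO ℤ) * c3

theorem supp_dec (hD' : DD phi (swp S b eta e U H)) (hP : PairF phi D S b eta e U H)
    (K : Submodule ℤ L) (hS : S ∈ K) (hb : b ∈ K) (hU : ∀ a ∈ supp U, a ∈ K)
    (hH : ∀ a ∈ supp H, a ∈ K) : ∀ a ∈ supp (swp S b eta e U H), a ∈ K := by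
  intro a ha
  rw [swp_four] at ha
  have hUH : ∀ a ∈ supp (H + U), a ∈ K := by
    intro a ha
    by_cases h1 : H.coeff a = 0
    · apply hU
      intro h2
      apply ha
      change H.coeff a + U.coeff a = 0
      rw [h1, h2, add_zero]
    · exact hH a h1
  have hUH' : ∀ a ∈ supp (U - H), a ∈ K := by
    intro a ha
    by_cases h1 : H.coeff a = 0
    · apply hU
      intro h2
      apply ha
      change U.coeff a - H.coeff a = 0
      rw [h1, h2, sub_zero]
    · exact hH a h1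
  have hUn : ∀ a ∈ supp (-U), a ∈ K := by
    intro a ha
    apply hU
    intro h2
    apply ha
    change -(U.coeff a) = 0
    rw [h2, neg_zero]
  rcases H96.four_supp _ _ ha with h | ⟨a', h, rfl⟩ | ⟨a', h, rfl⟩ | ⟨a', h, rfl⟩
  · exact hUH a h
  · exact K.add_mem hb (hUn a' h)
  · exact K.add_mem hS (hUn a' h)
  · exact K.add_mem (K.add_mem hb hS) (hUH' a' h)

/-- The loads `r eta`, `r ≠ 1`, are drop free. -/
theorem us_top (hV : VcoS) (hD' : DD phi (swp S b eta e U H)) (hP : PairF phi D S b eta e U H)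
    {r : (RO ℤ)ˣ} (hr : (r : RO ℤ) ≠ 1) (h0 : (r : RO ℤ) * H.coeff 0 + (1 - r) * U.coeff 0 ≠ 0) :
    ∀ a ∈ supp (swp S b eta e U H), a ∈ US (r * eta) S (swp S b eta e U H) := by
  have hz : ∀ i, phi (0 : L) i = 0 ∨ (phi S i = 0 ∧ phi b i = 0) := fun i => by
    left
    rw [map_zero]
    rfl
  have hb : b ∈ US (r * eta) S (swp S b eta e U H) := by
    apply mem_us
    intro h1
    have h2 := (vco_swp hV hD' hP r hz).2
    rw [add_zero, h1, mul_zero] at h2
    apply h0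
    linear_combination h2
  have key : ∀ a : L, (∀ i, phi a i = 0 ∨ (phi S i = 0 ∧ phi b i = 0)) →
      (H.coeff a ≠ 0 ∨ U.coeff a ≠ 0) → a ∈ US (r * eta) S (swp S b eta e U H) := by
    intro a ha hne
    obtain ⟨h1, h2⟩ := vco_swp hV hD' hP r ha
    by_contra hcon
    have h3 : vco (r * eta) S (swp S b eta e U H) a = 0 := by
      by_contra h; exact hcon (mem_us h)
    have h4 : vco (r * eta) S (swp S b eta e U H) (b + a) = 0 := by
      by_contra h
      apply hcon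
      have h5 := Submodule.sub_mem _ (mem_us h) hb
      rwa [add_sub_cancel_left] at h5
    rw [h3] at h1
    rw [h4, mul_zero] at h2
    have hr' : (1 : RO ℤ) - r ≠ 0 := fun h => hr (by linear_combination -h)
    have h5 : (1 - (r : RO ℤ)) * H.coeff a = 0 := by linear_combination -h1 - h2
    have h6 := (mul_eq_zero.mp h5).resolve_left hr'
    rw [h6, zero_add] at h1
    have h7 := (mul_eq_zero.mp h1.symm).resolve_left hr'
    rcases hne with h | h
    · exact h h6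
    · exact h h7
  exact supp_dec hD' hP _ S_us hb (fun a ha => key a (hP.sU a ha).2 (Or.inr ha))
    (fun a ha => key a (hP.sH a ha).2 (Or.inl ha))

theorem dgr_of_us (hRk : RkUSS) {G : AO ℤ L} (hD : DD phi G) {S : L} (hS : Ray G S) {x : (RO ℤ)ˣ}
    (h : ∀ a ∈ supp G, a ∈ US x S G) : Dgr phi G S x 0 := by
  apply H78.dgr_of hRk hD hS
  rw [add_zero]
  exact H78.finrank_top_of_supp hD _ h

end

end Pool.Agent.B5.O1H40
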