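import Pool.Agent.Lib.MP_b5021c_nt.O1.H40.Ms

/-!
# MP_b5021c_nt, ALL `θ`, K ODD, (O1-iii): two pairs
-/

namespace Pool.Agent.B5.O1H40

open scoped LaurentPolynomial
open Polynomial Pool.Agent.B5
open Pool.Agent.B5.H96 (four Fr Z2 Av FrP)

set_option linter.unusedSectionVars false

section

variable {P L : Type} [Fintype P] [DecidableEq P] [AddCommGroup L] [Module.Free ℤ L]
  [Module.Finite ℤ L] {phi : L →+ (P → ℤ)} {D : AO ℤ L} {S b : L} {eta e : (RO ℤ)ˣ}
  {U H : AO ℤ L}

/-- No ports of `S` and `b`. -/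
def Fre (phi : L →+ (P → ℤ)) (S b a : L) : Prop :=
  ∀ i, phi a i = 0 ∨ (phi S i = 0 ∧ phi b i = 0)

theorem pair_co (hi : Function.Injective phi) (hP : PairF phi D S b eta e U H) {a : L}
    (ha : Fre phi S b a) :
    D.coeff a = U.coeff a + H.coeff a ∧
    (eta : RO ℤ) * D.coeff (S + a) = -(H.coeff a) ∧
    (e : RO ℤ) * D.coeff (b + a) = -(H.coeff a) ∧
    (e : RO ℤ) * ((eta : RO ℤ) * D.coeff (b + S + a)) = H.coeff a - U.coeff a := by
  obtain ⟨jb, jS, fr'⟩ := frp hi hP
  have h1 : phi a jb = 0 := by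
    rcases ha jb with h | h
    · exact h
    · have := fr'.pb
      omega
  have h2 : phi a jS = 0 := by
    rcases ha jS with h | h
    · exact h
    · have := fr'.pS
      omega
  have fr := fr'.fr
  have zU := fr'.z2 (F := U) hP.sU
  have zH := fr'.z2 (F := H) hP.sH
  have z0 := H96.z2_add zU zH
  have z1 := H96.z2_neg zH
  have z3 := H96.z2_sub zH zU
  have e1 : (eta : RO ℤ) * ((eta⁻¹ : (RO ℤ)ˣ) : RO ℤ) = 1 := Units.mul_inv eta
  have e2 : (e : RO ℤ) * ((e⁻¹ : (RO ℤ)ˣ) : RO ℤ) = 1 := Units.mul_inv e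
  have key : ∀ x : L, D.coeff x = (four b S e⁻¹ eta⁻¹ (U + H) (-H) (-H) (H - U)).coeff x := by
    intro x
    rw [← pair_four hP]
  rw [key, key, key, key]
  refine ⟨H96.four_c0 fr _ _ z1 z1 z3 h1 h2, ?_, ?_, ?_⟩
  · rw [H96.four_c2 fr _ _ z0 z1 z3 h1 h2, ← mul_assoc, e1, one_mul]
    rfl
  · rw [H96.four_c1 fr _ _ z0 z1 z3 h1 h2, ← mul_assoc, e2, one_mul]
    rfl
  · rw [H96.four_c3 fr _ _ z0 z1 z1 h1 h2]
    have h3 : (H - U).coeff a = H.coeff a - U.coeff a := rfl
    rw [h3]
    linear_combination ((e : RO ℤ) * ((e⁻¹ : (RO ℤ)ˣ) : RO ℤ) * (H.coeff a - U.coeff a)) * e1 +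
      (H.coeff a - U.coeff a) * e2

/-- The exponents of `D`. -/
theorem pair_supp (hP : PairF phi D S b eta e U H) {x : L} (hx : x ∈ supp D) :
    ∃ a, Bin phi a ∧ Fre phi S b a ∧ (x = a ∨ x = b + a ∨ x = S + a ∨ x = b + S + a) := by
  rw [pair_four hP] at hx
  have hU : ∀ a, (U.coeff a ≠ 0 ∨ H.coeff a ≠ 0) → Bin phi a ∧ Fre phi S b a := by
    intro a ha
    rcases ha with h | h
    · exact hP.sU a h
    · exact hP.sH a h
  rcases H96.four_supp _ _ hx with h | ⟨a', h, rfl⟩ | ⟨a', h, rfl⟩ | ⟨a', h, rfl⟩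
  · have h1 := hU x (by
      by_contra hcon
      push Not at hcon
      apply h
      change U.coeff x + H.coeff x = 0
      rw [hcon.1, hcon.2, add_zero])
    exact ⟨x, h1.1, h1.2, Or.inl rfl⟩
  · have h1 := hU a' (Or.inr fun h2 => h (by
      change -(H.coeff a') = 0
      rw [h2, neg_zero]))
    exact ⟨a', h1.1, h1.2, Or.inr (Or.inl rfl)⟩
  · have h1 := hU a' (Or.inr fun h2 => h (by
      change -(H.coeff a') = 0
      rw [h2, neg_zero]))
    exact ⟨a', h1.1, h1.2, Or.inr (Or.inr (Or.inl rfl))⟩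
  · have h1 := hU a' (by
      by_contra hcon
      push Not at hcon
      apply h
      change H.coeff a' - U.coeff a' = 0
      rw [hcon.1, hcon.2, sub_zero])
    exact ⟨a', h1.1, h1.2, Or.inr (Or.inr (Or.inr rfl))⟩

theorem fre_zero : Fre phi S b 0 := fun i => by
  left
  rw [map_zero]
  rfl

variable {b1 b2 : L} {e1 e2 : (RO ℤ)ˣ} {U1 H1 U2 H2 : AO ℤ L}

/-- `b1` and `b2` have no common port. -/
theorem dis12 (hi : Function.Injective phi) (hP1 : PairF phi D S b1 eta e1 U1 H1)
    (hP2 : PairF phi D S b2 eta e2 U2 H2) {j2 : P} (h2 : phi b2 j2 = 1) (h1 : phi b1 j2 = 0) :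
    ∀ i, phi b1 i = 0 ∨ phi b2 i = 0 := by
  obtain ⟨jb2, jS, fr'⟩ := frp hi hP2
  have hS := fr'.pS
  have hb1S : phi b1 jS = 0 := by
    rcases hP1.dis jS with h | h
    · omega
    · exact h
  have hb1 : b1 ∈ supp D := by
    obtain ⟨-, -, h3, -⟩ := pair_co hi hP1 (a := 0) fre_zero
    rw [add_zero] at h3
    intro h4
    rw [h4, mul_zero] at h3
    exact hP1.H0 (by linear_combination h3)
  obtain ⟨a, hba, hfa, h3⟩ := pair_supp hP2 hb1
  have haS : phi a jS = 0 := by
    rcases hfa jS with h | h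
    · exact h
    · omega
  have hb2S : phi b2 jS = 0 := by
    rcases hP2.dis jS with h | h
    · omega
    · exact h
  rcases h3 with rfl | rfl | rfl | rfl
  · intro i
    rcases hfa i with h | h
    · exact Or.inl h
    · exact Or.inr h.2
  · exfalso
    rw [map_add, Pi.add_apply, h2] at h1
    rcases hba j2 with h | h <;> omega
  · exfalso
    rw [map_add, Pi.add_apply, hS] at hb1S
    omega
  · exfalso
    rw [map_add, map_add, Pi.add_apply, Pi.add_apply, hS] at hb1S
    omega

/-- The shift by `b2`. -/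
theorem shift (hi : Function.Injective phi) (hP1 : PairF phi D S b1 eta e1 U1 H1)
    (hP2 : PairF phi D S b2 eta e2 U2 H2) (hdis : ∀ i, phi b1 i = 0 ∨ phi b2 i = 0) {a : L}
    (h1 : Fre phi S b1 a) (h2 : Fre phi S b2 a) :
    Fre phi S b1 (b2 + a) ∧ (e2 : RO ℤ) * H1.coeff (b2 + a) = U1.coeff a - H1.coeff a ∧
    (e2 : RO ℤ) * U1.coeff (b2 + a) = -(U1.coeff a) := by
  have h3 : Fre phi S b1 (b2 + a) := by
    intro i
    rw [map_add, Pi.add_apply]
    rcases h1 i with h | h
    · rcases hP2.dis i with h4 | h4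
      · rcases hdis i with h5 | h5
        · exact Or.inr ⟨h4, h5⟩
        · left; rw [h, h5, add_zero]
      · left; rw [h, h4, add_zero]
    · exact Or.inr h
  obtain ⟨p1, p2, -, -⟩ := pair_co hi hP1 h1
  obtain ⟨q1, q2, q3, q4⟩ := pair_co hi hP2 h2
  obtain ⟨r1, r2, -, -⟩ := pair_co hi hP1 h3
  have h4 : S + (b2 + a) = b2 + S + a := by abel
  rw [h4] at r2
  refine ⟨h3, ?_, ?_⟩
  · linear_combination (e2 : RO ℤ) * r2 - q4 + p1 - q1 + 2 * p2 - 2 * q2
  · linear_combination (-(e2 : RO ℤ)) * r1 + q3 - (e2 : RO ℤ) * r2 + q4 - p1 + q1 - p2 + q2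

/-- Two pairs with mass one: the load `eta` of the swapped element is drop free. -/
theorem us_two (hV : VcoS) (hD' : DD phi (swp S b1 eta e1 U1 H1))
    (hP1 : PairF phi D S b1 eta e1 U1 H1) (hP2 : PairF phi D S b2 eta e2 U2 H2) {j2 : P}
    (h2 : phi b2 j2 = 1) (h1 : phi b1 j2 = 0) (h0 : U1.coeff 0 ≠ H1.coeff 0) :
    ∀ a ∈ supp (swp S b1 eta e1 U1 H1), a ∈ US eta S (swp S b1 eta e1 U1 H1) := by
  have hi := hD'.inj
  have hdis := dis12 hi hP1 hP2 h2 h1
  obtain ⟨jb2, jS, fr'⟩ := frp hi hP2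
  have hjS := fr'.pS
  have hv : ∀ a, Fre phi S b1 a → vco eta S (swp S b1 eta e1 U1 H1) a = H1.coeff a ∧
      (e1 : RO ℤ) * vco eta S (swp S b1 eta e1 U1 H1) (b1 + a) = -(H1.coeff a) := by
    intro a ha
    have h3 := vco_swp hV hD' hP1 1 ha
    rw [one_mul, Units.val_one, sub_self, zero_mul, add_zero, one_mul, add_zero] at h3
    exact h3
  have hH : ∀ a, Fre phi S b1 a → H1.coeff a ≠ 0 →
      a ∈ US eta S (swp S b1 eta e1 U1 H1) := by
    intro a ha h3
    apply mem_us
    rw [(hv a ha).1]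
    exact h3
  have hb1 : b1 ∈ US eta S (swp S b1 eta e1 U1 H1) := by
    apply mem_us
    intro h3
    have h4 := (hv 0 fre_zero).2
    rw [add_zero, h3, mul_zero] at h4
    exact hP1.H0 (by linear_combination h4)
  have hb2 : b2 ∈ US eta S (swp S b1 eta e1 U1 H1) := by
    obtain ⟨s1, s2, -⟩ := shift hi hP1 hP2 hdis (a := 0) fre_zero fre_zero
    rw [add_zero] at s1 s2
    apply hH b2 s1
    intro h3
    rw [h3, mul_zero] at s2
    exact h0 (by linear_combination -s2)
  have hU1 : ∀ a, Fre phi S b1 a → Fre phi S b2 a → U1.coeff a ≠ 0 →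
      a ∈ US eta S (swp S b1 eta e1 U1 H1) := by
    intro a h3 h4 h5
    by_cases h6 : H1.coeff a = 0
    · obtain ⟨s1, s2, -⟩ := shift hi hP1 hP2 hdis h3 h4
      have h7 : H1.coeff (b2 + a) ≠ 0 := by
        intro h8
        rw [h8, mul_zero, h6, sub_zero] at s2
        exact h5 s2.symm
      have h8 := Submodule.sub_mem _ (hH _ s1 h7) hb2
      rwa [add_sub_cancel_left] at h8
    · exact hH a h3 h6
  refine supp_dec hD' hP1 _ S_us hb1 (fun a' ha' => ?_) (fun a ha => hH a (hP1.sH a ha).2 ha)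
  have hfa' : Fre phi S b1 a' := (hP1.sU a' ha').2
  have ha'S : phi a' jS = 0 := by
    rcases hfa' jS with h | h
    · exact h
    · omega
  have hb2S : phi b2 jS = 0 := by
    rcases hP2.dis jS with h | h
    · omega
    · exact h
  -- a' = a or b2 + a
  have hdec : ∃ a, Fre phi S b2 a ∧ (a' = a ∨ a' = b2 + a) := by
    obtain ⟨p1, p2, -, -⟩ := pair_co hi hP1 hfa'
    by_cases h3 : D.coeff a' = 0
    · have h4 : S + a' ∈ supp D := by
        intro h5
        rw [h5, mul_zero] at p2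
        apply ha'
        rw [h3] at p1
        linear_combination -p1 - p2
      obtain ⟨a, hba, hfa, h5⟩ := pair_supp hP2 h4
      have haS : phi a jS = 0 := by
        rcases hfa jS with h | h
        · exact h
        · omega
      have h6 := congrArg (fun x => phi x jS) (Eq.refl (S + a'))
      rcases h5 with h5 | h5 | h5 | h5
      · exfalso
        have h7 := congrArg (fun x => phi x jS) h5
        simp only [map_add, Pi.add_apply] at h7
        omega
      · exfalso
        have h7 := congrArg (fun x => phi x jS) h5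
        simp only [map_add, Pi.add_apply] at h7
        omega
      · exact ⟨a, hfa, Or.inl (add_left_cancel h5)⟩
      · refine ⟨a, hfa, Or.inr ?_⟩
        have h7 : S + a' = S + (b2 + a) := by rw [h5]; abel
        exact add_left_cancel h7
    · obtain ⟨a, hba, hfa, h5⟩ := pair_supp hP2 h3
      have haS : phi a jS = 0 := by
        rcases hfa jS with h | h
        · exact h
        · omega
      rcases h5 with h5 | h5 | h5 | h5
      · exact ⟨a, hfa, Or.inl h5⟩
      · exact ⟨a, hfa, Or.inr h5⟩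
      · exfalso
        have h7 := congrArg (fun x => phi x jS) h5
        simp only [map_add, Pi.add_apply] at h7
        omega
      · exfalso
        have h7 := congrArg (fun x => phi x jS) h5
        simp only [map_add, Pi.add_apply] at h7
        omega
  obtain ⟨a, hfa, rfl | rfl⟩ := hdec
  · exact hU1 a' hfa' hfa ha'
  · have hfa1 : Fre phi S b1 a := by
      intro i
      rcases hfa i with h | h
      · exact Or.inl h
      · rcases hfa' i with h3 | h3
        · left
          rw [map_add, Pi.add_apply, h.2, zero_add] at h3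
          exact h3
        · exact Or.inr h3
    obtain ⟨s1, -, s3⟩ := shift hi hP1 hP2 hdis hfa1 hfa
    have h4 : U1.coeff a ≠ 0 := by
      intro h5
      rw [h5, neg_zero] at s3
      rcases mul_eq_zero.mp s3 with h6 | h6
      · exact e2.ne_zero h6
      · exact ha' h6
    exact Submodule.add_mem _ hb2 (hU1 a hfa1 hfa h4)

end

end Pool.Agent.B5.O1H40
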